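import Pool.Agent.TF2.C.SysC
import Pool.Agent.TF2.K.SN
import Pool.Agent.THF.K.OmK
import Pool.Agent.THF.K.Ex
import Pool.Agent.THF.A.N1
import Pool.Agent.MD.S.Inst2
import Pool.Agent.MD.S.Bfun

/-!
# TF2/C-SymC: the function `N` on the number field side, for the constant sign `e0`

As THF/K/SymN with `sysC` instead of `sys`; the fields of the system which occur in the conclusion are the same.
-/

namespace Pool.Agent.TF2

open NumberField IsDedekindDomain Pool.Agent.HWR Pool.Agent.QD Pool.Agent.QD.In Pool.Agent.LD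
  Pool.Agent.MD Pool.Agent.THF Pool.Agent.THG

private theorem sn_away {K : Type} [Field K] [NumberField K] {T : Finset ℕ}
    (S : Finset (HeightOneSpectrum (𝓞 K))) (hST : ∀ v, ¬ Away K T v → v ∈ S) (v : Io S) :
    Away K T v.1 := by
  by_contra h
  exact v.2 (hST v.1 h)

private theorem sn_sum {K : Type} [Field K] [NumberField K] {T : Finset ℕ}
    (x : ℝ) (hx : 1 < x) :
    Summable fun v : {v : HeightOneSpectrum (𝓞 K) // Away K T v} => (nrm v.1 : ℝ) ^ (-x) :=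
  (summable_nrm K hx).comp_injective (Subtype.val_injective (p := fun w => Away K T w))

open Classical in
private theorem sn_split {K : Type} [Field K] [NumberField K] {T : Finset ℕ}
    (S : Finset (HeightOneSpectrum (𝓞 K))) (hST : ∀ v, ¬ Away K T v → v ∈ S)
    (f : HeightOneSpectrum (𝓞 K) → ℂ)
    (hf : Summable fun v : {v : HeightOneSpectrum (𝓞 K) // Away K T v} => ‖f v.1 - 1‖) :
    ∏' v : {v : HeightOneSpectrum (𝓞 K) // Away K T v}, f v.1 =
      (∏ v ∈ S with Away K T v, f v) * ∏' v : Io S, f v.1 := by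
  have h1 := tprod_split (S.subtype fun v => Away K T v) (fun v => f v.1) hf
  rw [h1]
  congr 1
  · rw [← Finset.prod_subtype_eq_prod_filter]
  · have hmem : ∀ v : Io S, (⟨v.1, sn_away S hST v⟩ :
        {v : HeightOneSpectrum (𝓞 K) // Away K T v}) ∉ S.subtype fun v => Away K T v := by
      intro v h
      rw [Finset.mem_subtype] at h
      exact v.2 h
    let e : {v : {v : HeightOneSpectrum (𝓞 K) // Away K T v} //
        v ∉ S.subtype fun v => Away K T v} ≃ Io S :=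
      { toFun := fun v => ⟨v.1.1, fun h => v.2 (Finset.mem_subtype.2 h)⟩
        invFun := fun v => ⟨⟨v.1, sn_away S hST v⟩, hmem v⟩
        left_inv := fun v => Subtype.ext (Subtype.ext rfl)
        right_inv := fun v => Subtype.ext rfl }
    exact Equiv.tprod_eq e (fun v : Io S => f v.1)

private theorem sn_nrm {K : Type} [Field K] [NumberField K] (v : HeightOneSpectrum (𝓞 K)) :
    2 ≤ nrm v := by
  have h1 := nrm_ne_zero v
  have h2 := nrm_ne_one v
  omega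

private theorem sn_ne {K : Type} [Field K] [NumberField K] (v : HeightOneSpectrum (𝓞 K)) {w : ℂ}
    (hw : 0 < w.re) : (1 : ℂ) - (nrm v : ℂ) ^ (-w) ≠ 0 := by
  intro h0
  have h5 : ‖(nrm v : ℂ) ^ (-w)‖ = 1 := by
    rw [← sub_eq_zero.1 h0, norm_one]
  rw [Complex.norm_natCast_cpow_of_pos (Nat.pos_of_ne_zero (nrm_ne_zero v)), Complex.neg_re] at h5
  have h6 : (1 : ℝ) < nrm v := by
    have := sn_nrm v
    exact_mod_cast this
  have h7 : (nrm v : ℝ) ^ (-w.re) < 1 := Real.rpow_lt_one_of_one_lt_of_neg h6 (by linarith)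
  linarith

private theorem sn_zsum {K : Type} [Field K] [NumberField K] {w : ℂ} (hw : 1 < w.re) :
    Summable fun v : HeightOneSpectrum (𝓞 K) => ‖(1 - (nrm v : ℂ) ^ (-w))⁻¹ - 1‖ := by
  refine Summable.of_nonneg_of_le (fun v => norm_nonneg _) (fun v => ?_)
    ((summable_nrm K hw).mul_left 2)
  have hq : (2 : ℝ) ≤ nrm v := by exact_mod_cast sn_nrm v
  have hn : ‖(nrm v : ℂ) ^ (-w)‖ = (nrm v : ℝ) ^ (-w.re) := by
    rw [Complex.norm_natCast_cpow_of_pos (Nat.pos_of_ne_zero (nrm_ne_zero v)), Complex.neg_re]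
  have hle : ‖(nrm v : ℂ) ^ (-w)‖ ≤ 1 / 2 := by
    rw [hn]
    calc (nrm v : ℝ) ^ (-w.re) ≤ (nrm v : ℝ) ^ (-1 : ℝ) :=
          Real.rpow_le_rpow_of_exponent_le (by linarith) (by linarith)
      _ = (nrm v : ℝ)⁻¹ := Real.rpow_neg_one _
      _ ≤ 1 / 2 := by
          rw [one_div]
          exact inv_anti₀ (by norm_num) hq
  have hne := sn_ne v (w := w) (by linarith)
  have h1 : (1 - (nrm v : ℂ) ^ (-w))⁻¹ - 1 = (nrm v : ℂ) ^ (-w) * (1 - (nrm v : ℂ) ^ (-w))⁻¹ := by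
    field_simp
    ring
  have h2 : (1 : ℝ) / 2 ≤ ‖1 - (nrm v : ℂ) ^ (-w)‖ := by
    have := norm_sub_norm_le (1 : ℂ) ((nrm v : ℂ) ^ (-w))
    rw [norm_one] at this
    linarith
  rw [h1, norm_mul, norm_inv, hn, mul_comm]
  refine mul_le_mul_of_nonneg_right ?_ (by positivity)
  calc ‖1 - (nrm v : ℂ) ^ (-w)‖⁻¹ ≤ (1 / 2 : ℝ)⁻¹ := inv_anti₀ (by norm_num) h2
    _ = 2 := by norm_num

theorem snC {K : Type} [Field K] [NumberField K] {T : Finset ℕ} (hTp : ∀ p ∈ T, p.Prime)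
    (hT : ∀ p : ℕ, p.Prime → p < 101 → p ∈ T) (D : LocData T) {a : ℕ → ℝ}
    (ha : ∀ q : ℕ, |a q| ≤ 2 * Real.sqrt q) (ha2 : SqRel K T a)
    {T1 : Finset ℕ} {S V : Finset (HeightOneSpectrum (𝓞 K))} (hS : Nic T1 S)
    (hST : ∀ v, ¬ Away K T v → v ∈ S) (hV : V ⊆ S) (hVT : ∀ v ∈ V, Away K T v)
    {e0 : ℤ} (he : e0 = 1 ∨ e0 = -1) (H : HWNc D a e0 V) : SN D a S := by
  intro x0 hx0 hfam
  classical
  have h2T : 2 ∈ T := hT 2 Nat.prime_two (by norm_num)
  obtain ⟨z, hz, -⟩ := exists_KN K T hTp h2T V hVT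
  have hc : (QuotientGroup.mk z : GS S) ∈ KNc S V := (mem_KNc hV z).2 hz
  have hS0 : IsSys0 (sys S D a) := isSys0 D hS hST hT ha ha2
  have hS0C : IsSys0 (sysC S D a e0) := isSys0C D hS hST hT ha ha2
  have hG := isKnC D hS hST hT ha ha2 hV he H
  have hEC : IsExt (sysC S D a e0) := isExtC D hS hT ha he
  have hZne : (sys S D a).Zf 0 1 1 ≠ 0 := zext_ne D hS
  have hTy : ∀ y : ℝ, ∃ T' : OmD (sysC S D a e0), T'.x0 = x0 ∧ T'.y0 = y ∧ T'.r = 1 ∧
      (T'.om = fun _ => 1) ∧ IsOm (sysC S D a e0) T' := by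
    intro y
    obtain ⟨La, hLa⟩ := hfam y
    obtain ⟨T', h1, h2, h3, h4, h5, -⟩ := exists_Om D a hS hST hT ha ha2 hLa
    exact ⟨⟨T'.x0, T'.y0, T'.r, T'.om, T'.e⟩, h1, h2, h3, h4,
      ⟨h5.hr, h5.om_diff, h5.e_diff, h5.e_eq, h5.e_bd⟩⟩
  obtain ⟨N, A, hNd, hNe0⟩ := exists_N hS0C hEC hG hc hTy
  have hNe : ∀ s : ℂ, A < s.re → x0 - 1 / 2 < s.re → N s = ((sys S D a).cU : ℂ)⁻¹ *
      (sys S D a).Zf 0 1 1 * ((sys S D a).Ls s * (sys S D a).Ls (s + 1 / 2) *
        ((2 * s - 2) ^ 2 * (sys S D a).Z1 (2 * s - 1))) * Sym (sys S D a) s := hNe0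
  have hF : ∀ v ∈ S.filter (fun v => Away K T v), Away K T v := fun v hv =>
    (Finset.mem_filter.1 hv).2
  have hLs : ∀ s : ℂ, 3 / 2 < s.re → LT K a T s = (sys S D a).Ls s *
      ∏ v ∈ S.filter (fun v => Away K T v), efac a (nrm v) s := by
    intro s hs
    rw [LT_split S hST hT ha hs]
    rfl
  obtain ⟨b, hbd, hbn, hbe⟩ := exists_b K T hTp hT D a ha (sys S D a) _ hF hLs
  obtain ⟨Z, hZd, -, hZ1, hZe, -⟩ := zeta_fe K
  have hq : ∀ v, Away K T v → 101 ≤ nrm v := fun v hv => nrm_away K T hT v hv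
  have hq0 : ∀ v : HeightOneSpectrum (𝓞 K), (nrm v : ℂ) ≠ 0 := fun v => by
    exact_mod_cast nrm_ne_zero v
  set F := S.filter (fun v => Away K T v) with hFdef
  set B1 : ℂ → ℂ := fun s => ((sys S D a).cU : ℂ)⁻¹ * (sys S D a).Zf 0 1 1 *
    (b s * b (s + 1 / 2)) * (∏ v ∈ S, (1 - (nrm v : ℂ) ^ (-(2 * s - 1)))) *
    ∏ v ∈ F, (sfac (nrm v) (a (nrm v)) s)⁻¹ with hB1
  have hre : ∀ s : ℂ, (s + 1 / 2 : ℂ).re = s.re + 1 / 2 := fun s => by
    rw [Complex.add_re]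
    norm_num
  have hre2 : ∀ s : ℂ, (2 * s - 1 : ℂ).re = 2 * s.re - 1 := fun s => by
    rw [Complex.sub_re, Complex.mul_re]
    norm_num
  refine ⟨N, B1, Z, max A 6, hNd, ?_, ?_, hZd, hZ1, hZe, ?_⟩
  · rw [hB1]
    refine DifferentiableOn.mul (DifferentiableOn.mul (DifferentiableOn.const_mul
      (hbd.mul ?_) _) ?_) ?_
    · refine hbd.comp (differentiable_id.add (differentiable_const (1 / 2))).differentiableOn ?_
      intro s hs
      have h1 : 1 / 2 < s.re := hs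
      show 1 / 2 < (s + 1 / 2 : ℂ).re
      rw [hre]
      linarith
    · refine Differentiable.differentiableOn ?_
      refine Differentiable.fun_finset_prod fun v _ => ?_
      refine (differentiable_const 1).sub ?_
      intro s
      refine DifferentiableAt.const_cpow ?_ (Or.inl (hq0 v))
      fun_prop
    · refine Differentiable.differentiableOn ?_
      exact Differentiable.fun_finset_prod fun v hv => sfac_diff (hq _ (hF v hv)) (ha _)
  · intro s hs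
    have h3 : b s ≠ 0 := hbn _ hs
    have h4 : b (s + 1 / 2) ≠ 0 := hbn _ (by rw [hre]; linarith)
    show ((sys S D a).cU : ℂ)⁻¹ * (sys S D a).Zf 0 1 1 *
      (b s * b (s + 1 / 2)) * (∏ v ∈ S, (1 - (nrm v : ℂ) ^ (-(2 * s - 1)))) *
      ∏ v ∈ F, (sfac (nrm v) (a (nrm v)) s)⁻¹ ≠ 0
    refine mul_ne_zero (mul_ne_zero (mul_ne_zero (mul_ne_zero (inv_ne_zero (LD.cU_ne hS0)) hZne)
      (mul_ne_zero h3 h4)) ?_) ?_
    · exact Finset.prod_ne_zero_iff.2 fun v _ => sn_ne v (by rw [hre2]; linarith)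
    · exact Finset.prod_ne_zero_iff.2 fun v hv => inv_ne_zero (sfac_ne (hq _ (hF v hv)) (ha _) hs)
  · intro s hs1 hs2
    have hsA : A < s.re := lt_of_le_of_lt (le_max_left _ _) hs1
    have hs6 : 6 < s.re := lt_of_le_of_lt (le_max_right _ _) hs1
    have h4 : (sys S D a).Ls s = b s * D.Lam a K s := hbe s (by linarith)
    have h5 : (sys S D a).Ls (s + 1 / 2) = b (s + 1 / 2) * D.Lam a K (s + 1 / 2) :=
      hbe _ (by rw [hre]; linarith)
    have h6 : (2 * s - 2) ^ 2 * (sys S D a).Z1 (2 * s - 1) = (2 * s - 2) * Z (2 * s - 1) *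
        ∏ v ∈ S, (1 - (nrm v : ℂ) ^ (-(2 * s - 1))) := by
      have hw : 1 < (2 * s - 1 : ℂ).re := by rw [hre2]; linarith
      rw [hZe _ hw]
      have hsplit := tprod_split S
        (fun v : HeightOneSpectrum (𝓞 K) => (1 - (nrm v : ℂ) ^ (-(2 * s - 1)))⁻¹) (sn_zsum hw)
      have h8 : (∏ v ∈ S, (1 - (nrm v : ℂ) ^ (-(2 * s - 1)))⁻¹) *
          ∏ v ∈ S, (1 - (nrm v : ℂ) ^ (-(2 * s - 1))) = 1 := by
        rw [← Finset.prod_mul_distrib]
        exact Finset.prod_eq_one fun v _ => inv_mul_cancel₀ (sn_ne v (by linarith))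
      unfold ZP
      rw [hsplit]
      show (2 * s - 2) ^ 2 * ∏' v : Io S, (1 - (nrm v.1 : ℂ) ^ (-(2 * s - 1)))⁻¹ = _
      calc (2 * s - 2) ^ 2 * ∏' v : Io S, (1 - (nrm v.1 : ℂ) ^ (-(2 * s - 1)))⁻¹
          = (2 * s - 2) ^ 2 * (∏' v : Io S, (1 - (nrm v.1 : ℂ) ^ (-(2 * s - 1)))⁻¹) *
            ((∏ v ∈ S, (1 - (nrm v : ℂ) ^ (-(2 * s - 1)))⁻¹) *
              ∏ v ∈ S, (1 - (nrm v : ℂ) ^ (-(2 * s - 1)))) := by rw [h8, mul_one]
        _ = _ := by ring
    have hSP : SP K a T s = Sym (sys S D a) s * ∏ v ∈ F, sfac (nrm v) (a (nrm v)) s := by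
      have hg := gen_sum (fun v : {v : HeightOneSpectrum (𝓞 K) // Away K T v} => nrm v.1)
        (fun v => a (nrm v.1)) (fun v => nrm_ge K T hT v.1 v.2) (fun v => ha _)
        (fun x hx => sn_sum x hx) (s := s) (by linarith)
      unfold SP
      rw [sn_split S hST (fun v => sfac (nrm v) (a (nrm v)) s) hg, mul_comm]
      rfl
    have h7 : Sym (sys S D a) s = SP K a T s * ∏ v ∈ F, (sfac (nrm v) (a (nrm v)) s)⁻¹ := by
      rw [hSP, Finset.prod_inv_distrib, mul_assoc, mul_inv_cancel₀, mul_one]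
      exact Finset.prod_ne_zero_iff.2 fun v hv => sfac_ne (hq _ (hF v hv)) (ha _) (by linarith)
    rw [hNe s hsA hs2, h4, h5, h6, h7, hB1]
    ring

end Pool.Agent.TF2
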