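import Pool.Agent.TF2.C.Par
import Pool.Agent.TF2.D.Main
import Pool.Agent.MD.S.Main
import Pool.Agent.MD.P.Sum
import Pool.Agent.QD.In.Right

/-!
# TF2/C-Main: the descent from the quadratic extensions to the field

`sg_const` (TF2/D): the signs of all quadratic extensions of `K` differ from the expected ones by the same `e0`; the
symmetric square (`sxC`), the square of the completed L-function (`meC`) and the integral orders (`intOL`) give `e0 = 1`
(`e0_one`); then Hasse-Weil up to the sign for `K` by MD/S/Main.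
-/

namespace Pool.Agent.TF2

open NumberField IsDedekindDomain Pool.Agent.HWR Pool.Agent.QD Pool.Agent.QD.In Pool.Agent.LD
  Pool.Agent.MD Pool.Agent.THF Pool.Agent.THG Pool.Agent.H73.AL

private theorem main_nsq {K : Type} [Field K] [NumberField K]
    {V : Finset (HeightOneSpectrum (𝓞 K))} (hne : V.Nonempty) {z : Kˣ}
    (h : KN V z) : ¬ IsSquare z := by
  rintro ⟨r, rfl⟩
  obtain ⟨v, hv⟩ := hne
  apply h.1 v hv
  have h1 := Pool.Agent.QD.LSq_sq v r
  rwa [pow_two] at h1

private theorem main_odd (K : Type) [Field K] [NumberField K]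
    {V : Finset (HeightOneSpectrum (𝓞 K))} (hne : V.Nonempty) : ¬ AllEven V (⟨K⟩ : Ext K) := by
  intro h
  obtain ⟨v, hv⟩ := hne
  have h1 := sum_locDeg K v
  have h2 : 2 ∣ ∑ w ∈ pls K v, locDeg K w := Finset.dvd_sum fun w hw => h v hv w (mem_pls.1 hw)
  rw [h1, Module.finrank_self] at h2
  omega

/-- Hasse-Weil up to the sign for `K`, from Hasse-Weil for its quadratic extensions and for the quadratic extensions of
these -/
theorem pm_of_two {T : Finset ℕ} (hTp : ∀ p ∈ T, p.Prime)
    (hT : ∀ p : ℕ, p.Prime → p < 101 → p ∈ T) (D : LocData T) {a : ℕ → ℝ}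
    (ha : ∀ q : ℕ, |a q| ≤ 2 * Real.sqrt q) (hfr : FrobRel T a)
    (K : Type) [Field K] [NumberField K]
    (h1 : ∀ (L : Type) [Field L] [NumberField L] [Algebra K L], Module.finrank K L = 2 →
      D.HW a L)
    (h2 : ∀ (L : Type) [Field L] [NumberField L] [Algebra K L], Module.finrank K L = 2 →
      ∀ (M : Type) [Field M] [NumberField M] [Algebra L M], Module.finrank L M = 2 → D.HW a M) :
    HWpm D a K := by
  obtain ⟨V, hne, hVT⟩ := exists_Vne K hTp
  refine (p1b K T hTp hT D a ha hfr V hVT 0 ?_).2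
  intro n hn F hF hE
  cases hF with
  | base => exact absurd hE (main_odd K hne)
  | step inst tow h deg =>
    cases h with
    | base => exact @h1 _ _ _ inst deg
    | @step m F1 F2 inst1 tow1 h' deg1 =>
      have hm : m = 0 := by omega
      subst hm
      cases h' with
      | base => exact @h2 _ _ _ inst1 deg1 _ _ _ inst deg

/-- for one field: if its quadratic extensions `L` satisfy `AllQ`, and the quadratic extensions of these too, then so
does `K` -/
theorem allQ_descent {T : Finset ℕ} (hTp : ∀ p ∈ T, p.Prime)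
    (hT : ∀ p : ℕ, p.Prime → p < 101 → p ∈ T) (D : LocData T) {a : ℕ → ℝ}
    (ha : ∀ q : ℕ, |a q| ≤ 2 * Real.sqrt q) (hfr : FrobRel T a)
    (K : Type) [Field K] [NumberField K]
    (h1 : ∀ (L : Type) [Field L] [NumberField L] [Algebra K L], Module.finrank K L = 2 →
      AllQ D a L)
    (h2 : ∀ (L : Type) [Field L] [NumberField L] [Algebra K L], Module.finrank K L = 2 →
      ∀ (E : Type) [Field E] [NumberField E] [Algebra L E], Module.finrank L E = 2 →
        AllQ D a E) : AllQ D a K := by
  obtain ⟨e0, hC⟩ := sg_const hTp hT D ha K h1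
  have h4 : ∀ (L : Type) [Field L] [NumberField L] [Algebra K L], Module.finrank K L = 2 →
      ∀ (M : Type) [Field M] [NumberField M] [Algebra L M], Module.finrank L M = 2 → D.HW a M :=
    fun L _ _ _ hL M _ _ _ hM => (h1 L hL).2 M hM
  have he : e0 = 1 ∨ e0 = -1 := by
    obtain ⟨x, -, -, hx⟩ := exists_manyN (K := K) ∅ 1
    exact (hC (x 0) (hx 0)).1
  obtain ⟨V, hne, hVT⟩ := exists_Vne K hTp
  have H : HWNc D a e0 V := fun x hx => hC x (main_nsq hne hx)
  have H4 : HWN4 D a V := fun _ _ L _ _ _ _ hd _ M _ _ _ hM => h4 L hd M hM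
  have hSX : SX D a K := sxC hTp hT D ha hfr hne hVT he H H4
    fun x hx => rh_of_pm (h1 (qf hx).L (qf hx).deg).1
  have hME : ME D a K := meC hTp hT D ha K he hC h4
  have hIO : IO D a K := intOL hTp hT D ha hfr hSX hME V fun x _ hx =>
    ⟨(h1 (qf hx).L (qf hx).deg).1, sx_of_allQ hTp hT D ha hfr (qf hx).L (h1 _ (qf hx).deg)
      fun E _ _ _ hE => h2 (qf hx).L (qf hx).deg E hE⟩
  have hone : e0 = 1 := e0_one hTp hT D ha K he hC h4 hSX.1 hIO
  subst hone
  have hq : ∀ (L : Type) [Field L] [NumberField L] [Algebra K L], Module.finrank K L = 2 →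
      D.HW a L := by
    intro L _ _ _ hL
    obtain ⟨x, θ, hθ, hx⟩ := exists_theta K L hL
    exact hw_of_SG hTp hT D ha hx L hL θ hθ (hC x hx)
  exact ⟨pm_of_two hTp hT D ha hfr K hq h4, hq⟩

end Pool.Agent.TF2
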