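import Pool.Agent.TF2.K.Cl
import Pool.Agent.TF2.C.Fam2C
import Pool.Agent.THG.G.Sg1
import Pool.Agent.THF.K.Rel43
import Pool.Agent.THF.K.Many
import Pool.Agent.THF.O.Mer0
import Pool.Agent.H73.AL.Final

/-!
# TF2/C-Par: the constant sign is `1`

`mer2C`: the square of the completed L-function of `K` is a quotient of entire functions, with the sign `e0` (relation of
the biquadratic extension).  `par_key`: parity of the orders at `1`.  `e0_one`: if the order at `1` of the continuation to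
`Re s > 1` is an integer then `e0 = 1`.
-/

namespace Pool.Agent.TF2

open NumberField IsDedekindDomain Pool.Agent.HWR Pool.Agent.QD Pool.Agent.QD.In Pool.Agent.LD
  Pool.Agent.MD Pool.Agent.THF Pool.Agent.THG Pool.Agent.H73.AL

theorem par_key {f g : ℂ → ℂ} (hf : Differentiable ℂ f) (hg : Differentiable ℂ g) {m n : ℕ}
    (hm : analyticOrderAt f 1 = m) (hn : analyticOrderAt g 1 = n) {e : ℂ}
    (h : ∀ s : ℂ, f s * g (2 - s) = e * (f (2 - s) * g s)) : (-1 : ℂ) ^ n = e * (-1) ^ m := by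
  obtain ⟨u, hu, hu0, hfu⟩ := ((hf.analyticAt 1).analyticOrderAt_eq_natCast).1 hm
  obtain ⟨v, hv, hv0, hgv⟩ := ((hg.analyticAt 1).analyticOrderAt_eq_natCast).1 hn
  have e1 : (2 : ℂ) - 1 = 1 := by norm_num
  have hc : ContinuousAt (fun s : ℂ => 2 - s) 1 := (continuous_const.sub continuous_id).continuousAt
  have ht : Filter.Tendsto (fun s : ℂ => 2 - s) (nhds 1) (nhds 1) := by
    have h1 := hc.tendsto
    rwa [e1] at h1
  have hu2 : ContinuousAt (fun s : ℂ => u (2 - s)) 1 := by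
    refine ContinuousAt.comp (g := u) ?_ hc
    rw [e1]
    exact hu.continuousAt
  have hv2 : ContinuousAt (fun s : ℂ => v (2 - s)) 1 := by
    refine ContinuousAt.comp (g := v) ?_ hc
    rw [e1]
    exact hv.continuousAt
  have hF : ContinuousAt (fun s : ℂ => (-1 : ℂ) ^ n * (u s * v (2 - s)) -
      e * (-1) ^ m * (u (2 - s) * v s)) 1 :=
    (continuousAt_const.mul (hu.continuousAt.mul hv2)).sub
      (continuousAt_const.mul (hu2.mul hv.continuousAt))
  have h0 : ∀ᶠ s : ℂ in nhdsWithin 1 {1}ᶜ, (-1 : ℂ) ^ n * (u s * v (2 - s)) -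
      e * (-1) ^ m * (u (2 - s) * v s) = 0 := by
    have h2 : ∀ᶠ s : ℂ in nhdsWithin 1 {1}ᶜ, s ≠ 1 := self_mem_nhdsWithin
    have h3 := nhdsWithin_le_nhds (s := ({1}ᶜ : Set ℂ)) hfu
    have h4 := nhdsWithin_le_nhds (s := ({1}ᶜ : Set ℂ)) hgv
    have h5 := nhdsWithin_le_nhds (s := ({1}ᶜ : Set ℂ)) (ht.eventually hfu)
    have h6 := nhdsWithin_le_nhds (s := ({1}ᶜ : Set ℂ)) (ht.eventually hgv)
    filter_upwards [h2, h3, h4, h5, h6] with s a2 a3 a4 a5 a6
    have a7 := h s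
    rw [a3, a4, a5, a6] at a7
    simp only [smul_eq_mul] at a7
    have a8 : (2 - s - 1 : ℂ) = (-1) * (s - 1) := by ring
    rw [a8, mul_pow, mul_pow] at a7
    have a9 : (s - 1) ^ m * (s - 1) ^ n ≠ 0 :=
      mul_ne_zero (pow_ne_zero _ (sub_ne_zero.2 a2)) (pow_ne_zero _ (sub_ne_zero.2 a2))
    apply mul_left_cancel₀ a9
    rw [mul_zero]
    linear_combination a7
  have h1 : Filter.Tendsto (fun s : ℂ => (-1 : ℂ) ^ n * (u s * v (2 - s)) -
      e * (-1) ^ m * (u (2 - s) * v s)) (nhdsWithin 1 {1}ᶜ) (nhds 0) :=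
    tendsto_const_nhds.congr' (h0.mono fun s hs => hs.symm)
  have h2 := tendsto_nhds_unique h1 (hF.tendsto.mono_left nhdsWithin_le_nhds)
  simp only [e1] at h2
  have h3 : ((-1 : ℂ) ^ n - e * (-1) ^ m) * (u 1 * v 1) = 0 := by
    rw [h2]
    ring
  rcases mul_eq_zero.1 h3 with h4 | h4
  · exact sub_eq_zero.1 h4
  · exact absurd h4 (mul_ne_zero hu0 hv0)

private theorem par_nsq {K : Type} [Field K] [NumberField K]
    {V : Finset (HeightOneSpectrum (𝓞 K))} (hne : V.Nonempty) {z : Kˣ}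
    (h : KN V z) : ¬ IsSquare z := by
  rintro ⟨r, rfl⟩
  obtain ⟨v, hv⟩ := hne
  apply h.1 v hv
  have h1 := Pool.Agent.QD.LSq_sq v r
  rwa [pow_two] at h1

private theorem par_xz (K : Type) [Field K] [NumberField K] {T : Finset ℕ}
    (hTp : ∀ p ∈ T, p.Prime) (h2T : 2 ∈ T) : ∃ x z : Kˣ, ¬ IsSquare x ∧ ¬ IsSquare z ∧
      ¬ IsSquare (x * z) ∧ ∀ v : HeightOneSpectrum (𝓞 K), ¬ Away K T v → LSq v z := by
  obtain ⟨V, hne, hVT⟩ := exists_Vne K hTp
  obtain ⟨z, hz, hzT⟩ := exists_KN K T hTp h2T V hVT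
  obtain ⟨x, -, hx2, hx3⟩ := exists_manyN V 2
  by_cases h0 : IsSquare (x 0 * z)
  · refine ⟨x 1, z, hx3 1, par_nsq hne hz, fun h1 => ?_, hzT⟩
    obtain ⟨r, hr⟩ := h0
    obtain ⟨t, ht⟩ := h1
    refine hx2 0 1 (by norm_num) ⟨r * t * z⁻¹, ?_⟩
    have h3 : x 0 * x 1 = (x 0 * z) * (x 1 * z) * (z⁻¹ * z⁻¹) := by
      rw [mul_mul_mul_comm (x 0) z (x 1) z, mul_assoc, mul_mul_mul_comm z z z⁻¹ z⁻¹,
        mul_inv_cancel, one_mul, mul_one]
    rw [h3, hr, ht]
    apply Units.ext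
    push_cast
    ring
  · exact ⟨x 0, z, hx3 0, par_nsq hne hz, h0, hzT⟩

private theorem par_unit {K : Type} [Field K] {x : Kˣ} (hx : ¬ IsSquare x) :
    ¬ IsSquare (x : K) := by
  rintro ⟨y, hy⟩
  have hy0 : y ≠ 0 := by
    rintro rfl
    rw [mul_zero] at hy
    exact x.ne_zero hy
  refine hx ⟨Units.mk0 y hy0, Units.ext ?_⟩
  rw [hy, Units.val_mul, Units.val_mk0]

private theorem par_wx {T : Finset ℕ} (D : LocData T) {K : Type} [Field K] [NumberField K] {x : Kˣ}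
    (hx : ¬ IsSquare x) : D.w (qf hx).L = wx D x := by
  unfold wx nr nc sgx LocData.w
  rw [dif_neg hx, dif_neg hx, dif_neg hx]

private theorem par_w {T : Finset ℕ} (D : LocData T) {K : Type} [Field K] [NumberField K] {x : Kˣ}
    (hx : ¬ IsSquare x) (L : Type) [Field L] [NumberField L] [Algebra K L]
    (hd : Module.finrank K L = 2) (θ : L) (hθ : θ ^ 2 = algebraMap K L (x : K)) :
    D.w L = wx D x := by
  obtain ⟨e⟩ := quad_iso hx L (qf hx).L hd (qf hx).deg θ (qf hx).θ hθ (qf hx).sq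
  have h := rel_w D (rel_iso e.toRingEquiv T)
  simp only [List.map_cons, List.map_nil, List.prod_cons, List.prod_nil, mul_one] at h
  rw [h, par_wx]

/-- the square of the completed L-function of `K` is a quotient of entire functions, with the sign `e0` -/
theorem mer2C {T : Finset ℕ} (hTp : ∀ p ∈ T, p.Prime)
    (hT : ∀ p : ℕ, p.Prime → p < 101 → p ∈ T) (D : LocData T) {a : ℕ → ℝ}
    (ha : ∀ q : ℕ, |a q| ≤ 2 * Real.sqrt q) (K : Type) [Field K] [NumberField K] {e0 : ℤ}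
    (he : e0 = 1 ∨ e0 = -1) (H : ∀ x : Kˣ, ¬ IsSquare x → SG D a x e0)
    (H4 : ∀ (L : Type) [Field L] [NumberField L] [Algebra K L], Module.finrank K L = 2 →
      ∀ (M : Type) [Field M] [NumberField M] [Algebra L M], Module.finrank L M = 2 → D.HW a M) :
    ∃ f g : ℂ → ℂ, Differentiable ℂ f ∧ Differentiable ℂ g ∧ FinOrd f ∧ FinOrd g ∧
    (∀ s : ℂ, 3 / 2 < s.re → g s ≠ 0) ∧
    (∃ c : ℝ, 0 < c ∧ ∃ k : ℕ, ∀ s : ℂ, s.re = 3 → c * Real.exp (-(1 + |s.im|) ^ k) ≤ ‖g s‖) ∧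
    (∀ s : ℂ, 3 / 2 < s.re → g s * D.Lam a K s ^ 2 = f s) ∧
    ∀ s : ℂ, f s * g (2 - s) = (e0 : ℂ) * (f (2 - s) * g s) := by
  obtain ⟨x, z, hx, hz, hxz, hzT⟩ := par_xz K hTp (hT 2 Nat.prime_two (by norm_num))
  obtain ⟨La, i1, i2, i3, θz, hLd, hθz⟩ := exists_quad K z hz
  have hzx : ¬ IsSquare (((z : Kˣ) : K) * ((x : Kˣ) : K)) := by
    have h := par_unit hxz
    rwa [Units.val_mul, mul_comm] at h
  have hxL : ¬ IsSquare (algebraMap K La (x : K)) :=
    not_sq_quad (par_unit hz) (par_unit hx) hzx θz hθz hLd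
  have hxL' : ¬ IsSquare (Units.map (algebraMap K La).toMonoidHom x) := by
    rintro ⟨y, hy⟩
    refine hxL ⟨(y : La), ?_⟩
    have h := congrArg (fun u : Laˣ => (u : La)) hy
    rw [← Units.val_mul]
    exact h
  obtain ⟨M, j1, j2, j3, η, hMd, hη⟩ :=
    exists_quad La (Units.map (algebraMap K La).toMonoidHom x) hxL'
  have hrel := rel43_w D hx hz hxz hzT La hLd θz hθz M hMd η hη (qf hx).L (qf hx).deg (qf hx).θ
    (qf hx).sq (qf hxz).L (qf hxz).deg (qf hxz).θ (qf hxz).sq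
  have hw := rel_w D hrel
  have hw2 : D.w K * (D.w K * (D.w M * 1)) =
    D.w La * (D.w (qf hx).L * (D.w (qf hxz).L * 1)) := hw
  rw [par_w D hz La hLd θz hθz, par_wx D hx, par_wx D hxz] at hw2
  obtain ⟨g, g1, g2, g3, g4, c, hc, N, hN, g5⟩ := list_HW D hTp hT ha [⟨M⟩] (by
    intro F hF
    rw [List.mem_singleton] at hF
    rw [hF]
    exact H4 La hLd M hMd)
  simp only [List.map_cons, List.map_nil, List.prod_cons, List.prod_nil, mul_one] at g3 g4
  obtain ⟨-, A, hA1, hA2, hA3, hA4⟩ := H x hx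
  obtain ⟨-, B, hB1, hB2, hB3, hB4⟩ := H z hz
  obtain ⟨-, C, hC1, hC2, hC3, hC4⟩ := H (x * z) hxz
  have hK2 : D.w K * D.w K = 1 := by
    rcases w_sq D K with h | h <;> rw [h] <;> norm_num
  have hx2 : wx D x * wx D x = 1 := by
    rcases wx_cases D x with h | h <;> rw [h] <;> norm_num
  have hz2 : wx D z * wx D z = 1 := by
    rcases wx_cases D z with h | h <;> rw [h] <;> norm_num
  have hy2 : wx D (x * z) * wx D (x * z) = 1 := by
    rcases wx_cases D (x * z) with h | h <;> rw [h] <;> norm_num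
  have he2 : (e0 : ℂ) * e0 = 1 := by
    rcases he with h | h <;> rw [h] <;> norm_num
  have hM : D.w M = wx D x * wx D z * wx D (x * z) := by
    linear_combination hw2 - D.w M * hK2
  refine ⟨fun s => A s * B s * C s, g, (hA1.mul hB1).mul hC1, g1,
    Pool.Agent.QD.In.finOrd_mul (Pool.Agent.QD.In.finOrd_mul hA2 hB2) hC2, g2, fun s hs => ?_, ⟨c * Real.exp (-N ^ 2), by positivity,
    2, fun s hs => ?_⟩, fun s hs => ?_, fun s => ?_⟩
  · rw [g4 s hs]
    exact Lam_ne D hTp hT ha M hs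
  · refine le_trans ?_ (g5 s hs)
    rw [mul_assoc, ← Real.exp_add]
    refine mul_le_mul_of_nonneg_left (Real.exp_le_exp.2 ?_) hc.le
    have h1 := abs_nonneg s.im
    nlinarith [sq_nonneg (|s.im| - N / 2), sq_nonneg N]
  · show g s * D.Lam a K s ^ 2 = A s * B s * C s
    rw [hA4 s hs, hB4 s hs, hC4 s hs, g4 s hs, mul_comm]
    exact rel43 hTp hT D ha hx hz hxz hzT La hLd θz hθz M hMd η hη hs
  · show A s * B s * C s * g (2 - s) = e0 * (A (2 - s) * B (2 - s) * C (2 - s) * g s)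
    have h2 := g3 (2 - s)
    rw [sub_sub_cancel] at h2
    rw [hA3 s, hB3 s, hC3 s, h2, hM]
    generalize A (2 - s) = A'
    generalize B (2 - s) = B'
    generalize C (2 - s) = C'
    generalize g s = g'
    generalize wx D x = x' at *
    generalize wx D z = z' at *
    generalize wx D (x * z) = y' at *
    calc (e0 : ℂ) * x' * A' * (e0 * z' * B') * (e0 * y' * C') * (x' * z' * y' * g')
        = e0 * (e0 * e0) * (x' * x') * (z' * z') * (y' * y') * (A' * B' * C' * g') := by ring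
      _ = e0 * (A' * B' * C' * g') := by
        rw [he2, hx2, hz2, hy2]
        ring

theorem meC {T : Finset ℕ} (hTp : ∀ p ∈ T, p.Prime)
    (hT : ∀ p : ℕ, p.Prime → p < 101 → p ∈ T) (D : LocData T) {a : ℕ → ℝ}
    (ha : ∀ q : ℕ, |a q| ≤ 2 * Real.sqrt q) (K : Type) [Field K] [NumberField K] {e0 : ℤ}
    (he : e0 = 1 ∨ e0 = -1) (H : ∀ x : Kˣ, ¬ IsSquare x → SG D a x e0)
    (H4 : ∀ (L : Type) [Field L] [NumberField L] [Algebra K L], Module.finrank K L = 2 →
      ∀ (M : Type) [Field M] [NumberField M] [Algebra L M], Module.finrank L M = 2 → D.HW a M) :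
    ME D a K := by
  obtain ⟨f, g, h1, h2, h3, h4, h5, h6, h7, h8⟩ := mer2C hTp hT D ha K he H H4
  refine ⟨2, two_pos, f, g, h1, h2, h3, h4, h5, h6, h7, e0, ?_, h8⟩
  rcases he with h | h
  · left
    rw [h]
    norm_num
  · right
    rw [h]
    norm_num

/-- the sign is `1` -/
theorem e0_one {T : Finset ℕ} (hTp : ∀ p ∈ T, p.Prime)
    (hT : ∀ p : ℕ, p.Prime → p < 101 → p ∈ T) (D : LocData T) {a : ℕ → ℝ}
    (ha : ∀ q : ℕ, |a q| ≤ 2 * Real.sqrt q) (K : Type) [Field K] [NumberField K] {e0 : ℤ}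
    (he : e0 = 1 ∨ e0 = -1) (H : ∀ x : Kˣ, ¬ IsSquare x → SG D a x e0)
    (H4 : ∀ (L : Type) [Field L] [NumberField L] [Algebra K L], Module.finrank K L = 2 →
      ∀ (M : Type) [Field M] [NumberField M] [Algebra L M], Module.finrank L M = 2 → D.HW a M)
    (hR : RH D a K) (hI : IO D a K) : e0 = 1 := by
  obtain ⟨f, g, h1, h2, -, -, h5, -, h7, h8⟩ := mer2C hTp hT D ha K he H H4
  obtain ⟨-, h9⟩ := mer_ord D hTp hT ha hR two_pos h1 h2 h5 h7
  obtain ⟨m, n, hm, hn, h10⟩ := h9 1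
  have h11 := h10 (le_of_eq Complex.one_re.symm)
  obtain ⟨k, hk⟩ := hI 1 Complex.one_re
  have h12 := logO_unique h11 hk
  have h13 : (m : ℤ) = n + 2 * k := by
    have h14 : (m : ℝ) = n + 2 * k := by
      push_cast at h12
      linarith
    exact_mod_cast h14
  have h15 := par_key h1 h2 hm hn h8
  rcases he with h | h
  · exact h
  · exfalso
    rw [h] at h15
    have h16 : (-1 : ℂ) ^ m = (-1) ^ n := by
      have e1 : (-1 : ℂ) ^ (m : ℤ) = (-1) ^ (n : ℤ) := by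
        rw [h13, zpow_add₀ (by norm_num), zpow_mul]
        norm_num
      exact_mod_cast e1
    rw [h16] at h15
    have h17 : (-1 : ℂ) ^ n ≠ 0 := pow_ne_zero _ (by norm_num)
    have h18 : (2 : ℂ) * (-1) ^ n = 0 := by
      push_cast at h15
      linear_combination h15
    rcases mul_eq_zero.1 h18 with h19 | h19
    · norm_num at h19
    · exact h17 h19

end Pool.Agent.TF2
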