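import Pool.Agent.THG.G.Defs
import Pool.Agent.LD.I.Sys0
import Pool.Agent.LD.I.GInvB
import Pool.Agent.MD.S.ZExt
import Pool.Agent.MD.S.GMid
import Pool.Agent.THF.K.IsKn

/-!
# TF2/C-SysC: the system with the constant sign `e0`

`HWNc D a V e0`: the signs of the fields `K(√x)`, `KN V x`, are `e0` times the expected ones.  `sysC` differs from
`sys S D a` (QD/In/Def) only in `ell` and `GG`.  As THG/G/SysD, THG/G/SysK (with `e0` in place of the character `chi e`)
and THF/K/IsKn (only the classes in `KNc S V`).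
-/

namespace Pool.Agent.TF2

open NumberField IsDedekindDomain Pool.Agent.HWR Pool.Agent.QD Pool.Agent.QD.In Pool.Agent.LD
  Pool.Agent.MD Pool.Agent.THF Pool.Agent.THG

variable {K : Type} [Field K] [NumberField K] (S : Finset (HeightOneSpectrum (𝓞 K)))
  {T : Finset ℕ} (D : LocData T) (a : ℕ → ℝ) (e0 : ℤ)

/-- the sign of `K(√x)`, `KN V x`, is `e0` times the expected one -/
def HWNc (V : Finset (HeightOneSpectrum (𝓞 K))) : Prop := ∀ x : Kˣ, KN V x → SG D a x e0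

/-- the completed L-function with the sign `e0` -/
noncomputable def LmC (x : Kˣ) : ℂ → ℂ := Classical.epsilon (IsLmS D a x e0)

open Classical in
/-- L-function of `K(√x)` without the Euler factors at `S` -/
noncomputable def ellXC (x : Kˣ) (s : ℂ) : ℂ :=
  LmC D a e0 x s * ((dd x ^ 2 * cdx D x : ℝ) : ℂ) ^ (-s / 2) *
    (gam1 s)⁻¹ ^ (2 * Module.finrank ℚ K) * plx D x s *
    ∏ v ∈ S with Away K T v, (FF a (nrm v) (tt x v) s)⁻¹

open Classical in
noncomputable def ellcC (b : Io S →₀ ℕ) (c : GS S) (s : ℂ) : ℂ :=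
  if h : Rel S b c then ellXC S D a e0 h.choose s else 0

/-- the system with the sign `e0` -/
noncomputable def sysC : SysD :=
  { sys S D a with
    ell := ellcC S D a e0
    GG := fun g s => (e0 : ℂ) * GGX S D a (Quotient.out g) s }

variable {S e0} {T1 : Finset ℕ} (hS : Nic T1 S) (hST : ∀ v, ¬ Away K T v → v ∈ S)
  (hT : ∀ p : ℕ, p.Prime → p < 101 → p ∈ T)

include hS hST hT in
theorem isSys0C {a : ℕ → ℝ} (ha : ∀ q : ℕ, |a q| ≤ 2 * Real.sqrt q) (ha2 : SqRel K T a) :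
    IsSys0 (sysC S D a e0) := by
  have h := isSys0 D hS hST hT ha ha2
  exact ⟨h.cnt, h.hN, h.sumN, h.hlam, h.B_mul, h.B_comm, h.B_sq, h.R_ex, h.R_one, h.R_coset,
    h.U_perp, h.u_odd, h.u_even, h.recip, h.R_two, h.u_two, h.Zf_diff, h.Zf_ord, h.Zf_eq, h.Zf_fe,
    h.Gam_diff, h.Gam_bd⟩

include hS hT in
theorem isExtC {a : ℕ → ℝ} (ha : ∀ q : ℕ, |a q| ≤ 2 * Real.sqrt q) (he : e0 = 1 ∨ e0 = -1) :
    IsExt (sysC S D a e0) := by
  refine ⟨fun m g h hn => zext_one D (a := a) hS m g h hn, zext_ne D (a := a) hS,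
    zext_ext D (a := a) S, fun c => ?_⟩
  refine ⟨(GGX_mid D S hT ha (Quotient.out c)).const_mul _, fun s h1 h2 => ?_⟩
  refine mul_ne_zero ?_ (GGX_mid_ne D S hT ha (Quotient.out c) h1 h2)
  rcases he with h | h <;> rw [h] <;> norm_num

private theorem SysC_gam1_ne {s : ℂ} (hs : 0 < s.re) : gam1 s ≠ 0 := by
  unfold gam1
  refine mul_ne_zero ?_ (Complex.Gamma_ne_zero_of_re_pos hs)
  rw [Complex.cpow_ne_zero_iff]
  left
  exact_mod_cast (by positivity : (2 * Real.pi : ℝ) ≠ 0)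

private theorem SysC_plx_diff {K : Type} [Field K] [NumberField K] {T : Finset ℕ} (D : LocData T)
    (x : Kˣ) : Differentiable ℂ (plx D x) := by
  by_cases h : IsSquare x
  · have : plx D x = fun s => D.pl K s ^ 2 := by
      funext s
      unfold plx
      rw [dif_pos h]
    rw [this]
    exact (pl_diff D K).pow 2
  · have : plx D x = D.pl (qf h).L := by
      funext s
      unfold plx
      rw [dif_neg h]
    rw [this]
    exact pl_diff D _

private theorem SysC_plx_ord {K : Type} [Field K] [NumberField K] {T : Finset ℕ} (D : LocData T)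
    (x : Kˣ) : FinOrd (plx D x) := by
  by_cases h : IsSquare x
  · have : plx D x = fun s => D.pl K s ^ 2 := by
      funext s
      unfold plx
      rw [dif_pos h]
    rw [this]
    exact finOrd_pow (pl_ord D K) 2
  · have : plx D x = D.pl (qf h).L := by
      funext s
      unfold plx
      rw [dif_neg h]
    rw [this]
    exact pl_ord D _

private theorem SysC_AA {K : Type} [Field K] [NumberField K] {T : Finset ℕ} (D : LocData T)
    (x : Kˣ) : 0 < dd x ^ 2 * cdx D x :=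
  mul_pos (pow_pos (dd_pos x) 2) (cdx_pos D x)

private theorem SysC_prod_diff {K : Type} [Field K] [NumberField K]
    (s : Finset (HeightOneSpectrum (𝓞 K))) (a : ℕ → ℝ) (x : Kˣ) :
    Differentiable ℂ fun z => ∏ v ∈ s, (FF a (nrm v) (tt x v) z)⁻¹ := by
  classical
  induction s using Finset.induction_on with
  | empty => simp only [Finset.prod_empty]; exact differentiable_const _
  | insert v s hv ih =>
    simp only [Finset.prod_insert hv]
    exact (ffi_diff a (nrm_ne_zero v) _).mul ih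

private theorem SysC_prod_ord {K : Type} [Field K] [NumberField K]
    (s : Finset (HeightOneSpectrum (𝓞 K))) (a : ℕ → ℝ) (x : Kˣ) :
    FinOrd fun z => ∏ v ∈ s, (FF a (nrm v) (tt x v) z)⁻¹ := by
  classical
  induction s using Finset.induction_on with
  | empty => simp only [Finset.prod_empty]; exact finOrd_const _
  | insert v s hv ih =>
    simp only [Finset.prod_insert hv]
    exact finOrd_mul (ffi_ord a (nrm_ne_zero v) _) ih

section ell

variable {K : Type} [Field K] [NumberField K] (S : Finset (HeightOneSpectrum (𝓞 K)))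
  {T : Finset ℕ} (D : LocData T) {a : ℕ → ℝ} (e0 : ℤ) (x : Kˣ)

private theorem SysC_diff (hL : IsLmS D a x e0 (LmC D a e0 x)) :
    Differentiable ℂ (ellXC S D a e0 x) := by
  have hA := SysC_AA D x
  have h1 : Differentiable ℂ fun s : ℂ => ((dd x ^ 2 * cdx D x : ℝ) : ℂ) ^ (-s / 2) := by
    have hA' : ((dd x ^ 2 * cdx D x : ℝ) : ℂ) ≠ 0 := by exact_mod_cast hA.ne'
    exact (differentiable_id.neg.div_const 2).const_cpow (Or.inl hA')
  have h3 := (((hL.1.mul h1).mul (invgam1_diff.pow (2 * Module.finrank ℚ K))).mul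
    (SysC_plx_diff D x)).mul (SysC_prod_diff (open Classical in S.filter fun v => Away K T v) a x)
  exact h3

private theorem SysC_ord (hL : IsLmS D a x e0 (LmC D a e0 x)) :
    FinOrd (ellXC S D a e0 x) := by
  have hA := SysC_AA D x
  have h1 : FinOrd fun s : ℂ => ((dd x ^ 2 * cdx D x : ℝ) : ℂ) ^ (-s / 2) := by
    refine Z.finOrd_congr (finOrd_cpow hA (-1 / 2) 0) fun s => ?_
    congr 1
    ring
  have h3 := finOrd_mul (finOrd_mul (finOrd_mul (finOrd_mul hL.2.1 h1)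
    (finOrd_pow finOrd_invgam1 (2 * Module.finrank ℚ K))) (SysC_plx_ord D x))
    (SysC_prod_ord (open Classical in S.filter fun v => Away K T v) a x)
  exact h3

private theorem SysC_eq (h2 : ∀ v : HeightOneSpectrum (𝓞 K), (2 : 𝓞 K) ∈ v.asIdeal → v ∈ S)
    (hST : ∀ v, ¬ Away K T v → v ∈ S) (hT : ∀ p : ℕ, p.Prime → p < 101 → p ∈ T)
    (ha : ∀ q : ℕ, |a q| ≤ 2 * Real.sqrt q) (ha2 : SqRel K T a)
    (hL : IsLmS D a x e0 (LmC D a e0 x)) {s : ℂ} (hs : 3 / 2 < s.re) :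
    ellXC S D a e0 x s = (∏' v : Io S, Pool.Agent.QD.In.ef a (nrm v.1) 1 s) *
      ∏' v : Io S, Pool.Agent.QD.In.ef a (nrm v.1) (uK v.1 x) s := by
  classical
  have hA := SysC_AA D x
  have hA' : ((dd x ^ 2 * cdx D x : ℝ) : ℂ) ≠ 0 := by exact_mod_cast hA.ne'
  have hg : gam1 s ≠ 0 := SysC_gam1_ne (by linarith)
  have hp : plx D x s ≠ 0 := plx_ne D x (by linarith)
  have hF : (∏ v ∈ S with Away K T v, FF a (nrm v) (tt x v) s) ≠ 0 := by
    refine Finset.prod_ne_zero_iff.2 fun v hv => ?_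
    exact ff_ne ha (nrm_ge K T hT v (Finset.mem_filter.1 hv).2) _ (by linarith)
  have hc : ((dd x ^ 2 * cdx D x : ℝ) : ℂ) ^ (s / 2) *
      ((dd x ^ 2 * cdx D x : ℝ) : ℂ) ^ (-s / 2) = 1 := by
    rw [← Complex.cpow_add _ _ hA']
    have : s / 2 + -s / 2 = 0 := by ring
    rw [this, Complex.cpow_zero]
  unfold ellXC
  rw [hL.2.2.2 s hs]
  unfold LX
  rw [tprod_FF S h2 hST hT ha ha2 x hs, Finset.prod_inv_distrib]
  set P := (∏' v : Io S, Pool.Agent.QD.In.ef a (nrm v.1) 1 s) *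
    ∏' v : Io S, Pool.Agent.QD.In.ef a (nrm v.1) (uK v.1 x) s
  set F := ∏ v ∈ S with Away K T v, FF a (nrm v) (tt x v) s
  set c1 := ((dd x ^ 2 * cdx D x : ℝ) : ℂ) ^ (s / 2)
  set c2 := ((dd x ^ 2 * cdx D x : ℝ) : ℂ) ^ (-s / 2)
  rw [inv_pow]
  have hgp := pow_ne_zero (2 * Module.finrank ℚ K) hg
  generalize gam1 s ^ (2 * Module.finrank ℚ K) = g at hgp
  generalize plx D x s = p at hp
  calc c1 * g * (F * P / p) * c2 * g⁻¹ * p * F⁻¹
      = (c1 * c2) * (g * g⁻¹) * (p * p⁻¹) * (F * F⁻¹) * P := by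
        rw [div_eq_mul_inv]
        ring
    _ = P := by
        rw [hc, mul_inv_cancel₀ hgp, mul_inv_cancel₀ hp, mul_inv_cancel₀ hF]
        ring

private theorem SysC_fe (hT : ∀ p : ℕ, p.Prime → p < 101 → p ∈ T)
    (ha : ∀ q : ℕ, |a q| ≤ 2 * Real.sqrt q)
    (hL : IsLmS D a x e0 (LmC D a e0 x)) {s : ℂ} (hs : s.re < 1 / 2) :
    ellXC S D a e0 x s = (oddN S x : ℂ) ^ (2 * (1 - s)) * ((e0 : ℂ) * GGX S D a x s) *
      ellXC S D a e0 x (2 - s) := by
  classical
  have hre : (2 - s).re = 2 - s.re := by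
    rw [Complex.sub_re]
    rfl
  have hA := SysC_AA D x
  have hA' : ((dd x ^ 2 * cdx D x : ℝ) : ℂ) ≠ 0 := by exact_mod_cast hA.ne'
  have hg : gam1 (2 - s) ≠ 0 := SysC_gam1_ne (by linarith)
  have hp : plx D x (2 - s) ≠ 0 := plx_ne D x (by linarith)
  have hF : (∏ v ∈ S with Away K T v, FF a (nrm v) (tt x v) (2 - s)) ≠ 0 := by
    refine Finset.prod_ne_zero_iff.2 fun v hv => ?_
    exact ff_ne ha (nrm_ge K T hT v (Finset.mem_filter.1 hv).2) _ (by linarith)
  have hN : 0 < (oddN S x : ℝ) := by exact_mod_cast oddN_pos S x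
  have hD0 : 0 < D0 S x ^ 2 * cdx D x := mul_pos (pow_pos (D0_pos S x) 2) (cdx_pos D x)
  have hc : ((dd x ^ 2 * cdx D x : ℝ) : ℂ) ^ (-s / 2) =
      (oddN S x : ℂ) ^ (2 * (1 - s)) * ((D0 S x ^ 2 * cdx D x : ℝ) : ℂ) ^ (1 - s) *
        ((dd x ^ 2 * cdx D x : ℝ) : ℂ) ^ (-(2 - s) / 2) := by
    have e1 : (oddN S x : ℂ) ^ (2 * (1 - s)) = (((oddN S x : ℝ) ^ 2 : ℝ) : ℂ) ^ (1 - s) := by
      have h3 : (2 : ℂ) * (1 - s) = ((2 : ℕ) : ℂ) * (1 - s) := by norm_num
      rw [h3, Complex.cpow_nat_mul, pow_two, pow_two, Complex.ofReal_mul,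
        Complex.mul_cpow_ofReal_nonneg hN.le hN.le]
      push_cast
      rfl
    have e2 : dd x ^ 2 * cdx D x = (oddN S x : ℝ) ^ 2 * (D0 S x ^ 2 * cdx D x) := by
      rw [dd_eq S x]
      ring
    have e3 : ((dd x ^ 2 * cdx D x : ℝ) : ℂ) ^ (1 - s) =
        (((oddN S x : ℝ) ^ 2 : ℝ) : ℂ) ^ (1 - s) *
          ((D0 S x ^ 2 * cdx D x : ℝ) : ℂ) ^ (1 - s) := by
      rw [e2, Complex.ofReal_mul, Complex.mul_cpow_ofReal_nonneg (by positivity) hD0.le]
    rw [e1, ← e3, ← Complex.cpow_add _ _ hA']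
    congr 1
    ring
  unfold ellXC GGX
  rw [hL.2.2.1 s, hc, Finset.prod_mul_distrib, Finset.prod_inv_distrib, Finset.prod_inv_distrib]
  rw [inv_pow, inv_pow, mul_pow, inv_pow]
  have hgp := pow_ne_zero (2 * Module.finrank ℚ K) hg
  generalize gam1 (2 - s) ^ (2 * Module.finrank ℚ K) = g at hgp
  generalize (gam1 s ^ (2 * Module.finrank ℚ K))⁻¹ = g'
  generalize plx D x (2 - s) = p at hp
  generalize (∏ v ∈ S with Away K T v, FF a (nrm v) (tt x v) (2 - s)) = F at hF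
  generalize (∏ v ∈ S with Away K T v, FF a (nrm v) (tt x v) s)⁻¹ = F'
  generalize LmC D a e0 x (2 - s) = l
  generalize (oddN S x : ℂ) ^ (2 * (1 - s)) = o
  generalize ((D0 S x ^ 2 * cdx D x : ℝ) : ℂ) ^ (1 - s) = c1
  generalize ((dd x ^ 2 * cdx D x : ℝ) : ℂ) ^ (-(2 - s) / 2) = c2
  generalize plx D x s = p'
  generalize (e0 : ℂ) = η
  symm
  calc o * (η * (wx D x * c1 * (g * g') * (p' * p⁻¹) * (F * F'))) * (l * c2 * g⁻¹ * p * F⁻¹)
      = η * wx D x * l * (o * c1 * c2) * g' * p' * F' * (g * g⁻¹) * (p * p⁻¹) * (F * F⁻¹) := by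
        ring
    _ = η * wx D x * l * (o * c1 * c2) * g' * p' * F' := by
        rw [mul_inv_cancel₀ hgp, mul_inv_cancel₀ hp, mul_inv_cancel₀ hF]
        ring

private theorem SysC_of (S : Finset (HeightOneSpectrum (𝓞 K))) (a : ℕ → ℝ) {b : Io S →₀ ℕ}
    {c : GS S} (h : Rel S b c) :
    ∃ x : Kˣ, (∀ v : Io S, ordK v.1 x = (b v : ℤ)) ∧ (QuotientGroup.mk x : GS S) = c ∧
      ellcC S D a e0 b c = ellXC S D a e0 x := by
  refine ⟨h.choose, h.choose_spec.1, h.choose_spec.2, ?_⟩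
  funext w
  unfold ellcC
  rw [dif_pos h]

end ell

theorem isKnC {K : Type} [Field K] [NumberField K] {T : Finset ℕ} (D : LocData T) {a : ℕ → ℝ}
    {T1 : Finset ℕ} {S V : Finset (HeightOneSpectrum (𝓞 K))} (hS : Nic T1 S)
    (hST : ∀ v, ¬ Away K T v → v ∈ S) (hT : ∀ p : ℕ, p.Prime → p < 101 → p ∈ T)
    (ha : ∀ q : ℕ, |a q| ≤ 2 * Real.sqrt q) (ha2 : SqRel K T a) (hV : V ⊆ S) {e0 : ℤ}
    (he : e0 = 1 ∨ e0 = -1) (H : HWNc D a e0 V) :
    IsKn (sysC S D a e0) (KNc S V) := by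
  have h2 : ∀ v : HeightOneSpectrum (𝓞 K), (2 : 𝓞 K) ∈ v.asIdeal → v ∈ S := by
    intro v hv
    by_contra h
    exact nic_two hS v h hv
  have hLm : ∀ x : Kˣ, KN V x → IsLmS D a x e0 (LmC D a e0 x) :=
    fun x hx => Classical.epsilon_spec (H x hx).2
  have hη : ‖(e0 : ℂ)‖ = 1 := by
    rcases he with h | h <;> rw [h] <;> norm_num
  have hη0 : (e0 : ℂ) ≠ 0 := by
    intro h
    rw [h, norm_zero] at hη
    exact zero_ne_one hη
  constructor
  · intro b c h hn
    obtain ⟨x, -, hc, h3⟩ := SysC_of D e0 S a h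
    have hns : KN V x := (mem_KNc hV x).1 (by rw [← hc] at hn; exact hn)
    show Differentiable ℂ (ellcC S D a e0 b c)
    rw [h3]
    exact SysC_diff S D e0 x (hLm x hns)
  · intro b c h hn
    obtain ⟨x, -, hc, h3⟩ := SysC_of D e0 S a h
    have hns : KN V x := (mem_KNc hV x).1 (by rw [← hc] at hn; exact hn)
    show FinOrd (ellcC S D a e0 b c)
    rw [h3]
    exact SysC_ord S D e0 x (hLm x hns)
  · intro b c h hn s hs
    obtain ⟨x, hb, hc, h3⟩ := SysC_of D e0 S a h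
    have hns : KN V x := (mem_KNc hV x).1 (by rw [← hc] at hn; exact hn)
    show ellcC S D a e0 b c s = _
    rw [h3, SysC_eq S D e0 x h2 hST hT ha ha2 (hLm x hns) hs]
    congr 1
    refine tprod_congr fun v => ?_
    show _ = Pool.Agent.QD.In.ef a (nrm v.1) (uc S v b c) s
    rw [uc_of hS hb hc v]
  · intro b c h hn s hs
    obtain ⟨x, hb, hc, h3⟩ := SysC_of D e0 S a h
    have hns : KN V x := (mem_KNc hV x).1 (by rw [← hc] at hn; exact hn)
    show ellcC S D a e0 b c s = _ * _ * ellcC S D a e0 b c (2 - s)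
    rw [h3, SysC_fe S D e0 x hT ha (hLm x hns) hs]
    have e1 : (sysC S D a e0).odd b = oddN S x := (oddN_eq S x b hb).symm
    have e2 : (sysC S D a e0).GG c s = (e0 : ℂ) * GGX S D a x s := by
      show (e0 : ℂ) * GGX S D a (Quotient.out c) s = (e0 : ℂ) * GGX S D a x s
      rw [← hc, GGX_congr D S h2 hST (out_div S x)]
    rw [e1, e2]
  · intro c s hs
    have h1 := (GGX_diff D S hT ha (Quotient.out c) hs).differentiableWithinAt
      (s := {s : ℂ | s.re < 1 / 2})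
    exact h1.const_mul (e0 : ℂ)
  · intro c p q hpq
    obtain ⟨A, C, hA, hC, h1⟩ := GGX_bd D S hT ha (Quotient.out c) p q hpq
    refine ⟨A, C, hA, hC, fun s hs1 hs2 => ?_⟩
    show ‖(e0 : ℂ) * GGX S D a (Quotient.out c) s‖ ≤ _
    rw [norm_mul, hη, one_mul]
    exact h1 s hs1 hs2
  · intro c
    obtain ⟨n0, h1⟩ := GGX_inv D S hT ha (Quotient.out c)
    refine ⟨n0, fun n hn => ?_⟩
    obtain ⟨A, C, hA, hC, h3⟩ := h1 n hn
    refine ⟨A, C, hA, hC, fun s hs => ?_⟩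
    obtain ⟨h4, h5⟩ := h3 s hs
    show (e0 : ℂ) * GGX S D a (Quotient.out c) (2 - s) ≠ 0 ∧
      ‖((e0 : ℂ) * GGX S D a (Quotient.out c) (2 - s))⁻¹‖ ≤ _
    refine ⟨mul_ne_zero hη0 h4, ?_⟩
    rw [mul_inv, norm_mul, norm_inv, hη, inv_one, one_mul]
    exact h5

end Pool.Agent.TF2
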