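import Pool.Agent.TF2.C.SysC
import Pool.Agent.THF.K.Thin

/-!
# TF2/C-ThinC: uniform bounds for the entire functions of the fields `K(√x)`, `KN V x`, with the sign `e0`

As `thin2` (THF/K/Thin).
-/

namespace Pool.Agent.TF2

open NumberField IsDedekindDomain Pool.Agent.HWR Pool.Agent.QD Pool.Agent.QD.In Pool.Agent.LD
  Pool.Agent.MD Pool.Agent.THF Pool.Agent.THG

variable {K : Type} [Field K] [NumberField K] {T : Finset ℕ}
  (hT : ∀ p : ℕ, p.Prime → p < 101 → p ∈ T) (D : LocData T) {a : ℕ → ℝ}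
  (ha : ∀ q : ℕ, |a q| ≤ 2 * Real.sqrt q) {T1 : Finset ℕ}
  {S V : Finset (HeightOneSpectrum (𝓞 K))} (hS : Nic T1 S)
  (hST : ∀ v, ¬ Away K T v → v ∈ S)

include hT ha hS hST in
theorem thin2C {e0 : ℤ} (he : e0 = 1 ∨ e0 = -1) (H : HWNc D a e0 V) (X : ℝ) : ∃ A C : ℝ, 0 ≤ A ∧ 0 ≤ C ∧ ∀ x : Kˣ, KN V x →
    ∃ Λ : ℂ → ℂ, Differentiable ℂ Λ ∧ (∀ s : ℂ, 3 / 2 < s.re → Λ s = LX D a x s) ∧
      ∀ s : ℂ, -X ≤ s.re → s.re ≤ X → ‖Λ s‖ ≤ C * (oddN S x : ℝ) ^ A * (1 + |s.im|) := by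
  have hX4 : (4 : ℝ) ≤ max X 4 := le_max_right _ _
  have hXX : X ≤ max X 4 := le_max_left _ _
  obtain ⟨A, C, hA, hC, hup⟩ := LX_up D S (fun v hv => by_contra fun h => nic_two hS v h hv) hS hST hT ha
    (x1 := max X 4 + 2) (x2 := max X 4 + 2) (by linarith)
  obtain ⟨G, hG, hgam⟩ := gam1_up (x1 := max X 4 + 2) (x2 := max X 4 + 2) (by linarith)
  obtain ⟨C0, hC0, hpl⟩ := pl_poly (-(max X 4)) (max X 4 + 2) (by linarith) 0 le_rfl
  refine ⟨A, C0 * (C * G ^ (2 * Module.finrank ℚ K)), hA, by positivity, fun x hx => ?_⟩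
  obtain ⟨-, Λ, h1, h2, h3, h5⟩ := H x hx
  refine ⟨Λ, h1, h5, fun s hs1 hs2 => ?_⟩
  have hM : 0 ≤ C * (oddN S x : ℝ) ^ A * G ^ (2 * Module.finrank ℚ K) := by positivity
  have hedge : ∀ s : ℂ, s.re = max X 4 + 2 →
      ‖Λ s‖ ≤ C * (oddN S x : ℝ) ^ A * G ^ (2 * Module.finrank ℚ K) := by
    intro s hs
    rw [h5 s (by linarith)]
    refine (hup x s hs.ge hs.le).trans ?_
    refine mul_le_mul_of_nonneg_left ?_ (by positivity)
    exact pow_le_pow_left₀ (norm_nonneg _) (hgam s hs.ge hs.le) _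
  have hw : ‖(e0 : ℂ) * wx D x‖ = 1 := by
    have h7 : ‖(e0 : ℂ)‖ = 1 := by
      rcases he with h | h <;> rw [h] <;> norm_num
    rw [norm_mul, h7, one_mul]
    rcases wx_cases D x with h | h
    · rw [h, norm_one]
    · rw [h, norm_neg, norm_one]
  have h6 := hpl Λ h1 h2 _ hM
    (fun s hs => by
      rw [Real.rpow_zero, mul_one, h3 s, norm_mul, hw, one_mul]
      refine hedge (2 - s) ?_
      rw [Complex.sub_re, hs, Complex.re_ofNat]
      ring)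
    (fun s hs => by
      rw [Real.rpow_zero, mul_one]
      exact hedge s hs) s (by linarith) (by linarith)
  rw [zero_add, Real.rpow_one] at h6
  refine h6.trans (le_of_eq ?_)
  ring

end Pool.Agent.TF2
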